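import Mathlib
import Pool.Agent.H790R3.RB.Main
import Pool.Agent.W757.QR.St
import Pool.Agent.W757.RC.St4

/-! Final part of the project of helper757 for MP_8f2e1c_an: notions on the sphere and the
combination of the two parts. -/

set_option autoImplicit false

open Topology Filter Metric Set MeasureTheory
open scoped OnePoint
open Pool.Agent.H790R3.RB (CV hF cr ND wr rt sp pr hc pol Sink Attd HypTop)

namespace Pool.Agent.W757.RF

/-- A local coordinate at the point `a` of the sphere: `chart a 0 = a`. -/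
noncomputable def chart (a : OnePoint ℂ) (w : ℂ) : OnePoint ℂ :=
  match a with
  | none => open Classical in if w = 0 then ∞ else ((w⁻¹ : ℂ) : OnePoint ℂ)
  | some a => ((a + w : ℂ) : OnePoint ℂ)

/-- `a` is fixed by `f^p` with multiplier `ρ` -/
def HasMult (f : OnePoint ℂ → OnePoint ℂ) (p : ℕ) (a : OnePoint ℂ) (ρ : ℂ) : Prop :=
  ∃ g : ℂ → ℂ, g 0 = 0 ∧ HasDerivAt g ρ 0 ∧ ∀ᶠ w in 𝓝 (0 : ℂ), f^[p] (chart a w) = chart a (g w)

/-- `z` is in the basin of a parabolic cycle -/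
def ParaB (f : OnePoint ℂ → OnePoint ℂ) (z : OnePoint ℂ) : Prop :=
  ∃ (p : ℕ) (a : OnePoint ℂ), 0 < p ∧ HasMult f p a 1 ∧
    Tendsto (fun k : ℕ => f^[p * k] z) atTop (𝓝 a) ∧ ∀ k : ℕ, f^[p * k] z ≠ a

/-- `h` is holomorphic on the disc of radius `r` with values in the sphere -/
def HolD (h : ℂ → OnePoint ℂ) (r : ℝ) : Prop :=
  ∀ w₀ ∈ ball (0 : ℂ) r, ∃ g : ℂ → ℂ, AnalyticAt ℂ g w₀ ∧ ∀ᶠ w in 𝓝 w₀, h w = chart (h w₀) (g w)

/-- `z` is mapped into a Siegel disc -/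
def SiegB (f : OnePoint ℂ → OnePoint ℂ) (z : OnePoint ℂ) : Prop :=
  ∃ (n p : ℕ) (r : ℝ) (ρ : ℂ) (h : ℂ → OnePoint ℂ), 0 < p ∧ 0 < r ∧ ‖ρ‖ = 1 ∧
    (∀ m : ℕ, 0 < m → ρ ^ m ≠ 1) ∧ HolD h r ∧ InjOn h (ball 0 r) ∧
    (∀ w ∈ ball (0 : ℂ) r, f^[p] (h w) = h (ρ * w)) ∧ f^[n] z ∈ h '' ball 0 r

/-- the points of the plane which are neither in the basin of an attracting or parabolic cycle nor
mapped into a Siegel disc -/
def JS (f : OnePoint ℂ → OnePoint ℂ) : Set ℂ :=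
  {z : ℂ | ¬ Attd f (z : OnePoint ℂ) ∧ ¬ ParaB f (z : OnePoint ℂ) ∧ ¬ SiegB f (z : OnePoint ℂ)}

/-- the spherical area -/
noncomputable def sarea (E : Set ℂ) : ENNReal := ∫⁻ z in E, ENNReal.ofReal (1 / (1 + ‖z‖ ^ 2) ^ 2)

end Pool.Agent.W757.RF
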