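import Mathlib
import Pool.Agent.W757.RF.Defs

/-! Change of charts under Möbius transformations; transport of parabolic basins and Siegel discs. -/

set_option autoImplicit false

open Topology Filter Metric Set MeasureTheory
open scoped OnePoint
open Pool.Agent.H790R3.RB (CV hF cr ND wr rt sp pr hc pol Sink Attd HypTop)

namespace Pool.Agent.W757.RF

/-- homogeneous coordinates in the chart -/
noncomputable def chv (a : OnePoint ℂ) (w : ℂ) : ℂ × ℂ :=
  match a with
  | none => (1, w)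
  | some a => (a + w, 1)

/-- the coordinate in the chart -/
noncomputable def lc (a : OnePoint ℂ) (p : ℂ × ℂ) : ℂ :=
  match a with
  | none => p.2 / p.1
  | some a => p.1 / p.2 - a

/-- the denominator of the coordinate -/
noncomputable def dn (a : OnePoint ℂ) (p : ℂ × ℂ) : ℂ :=
  match a with
  | none => p.1
  | some _ => p.2

theorem chv_ne (a : OnePoint ℂ) (w : ℂ) : chv a w ≠ 0 := by
  induction a using OnePoint.rec with
  | infty => intro h; exact one_ne_zero (congrArg Prod.fst h)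
  | coe a => intro h; exact one_ne_zero (congrArg Prod.snd h)

theorem chart_infty (w : ℂ) [Decidable (w = 0)] :
    chart ∞ w = if w = 0 then ∞ else ((w⁻¹ : ℂ) : OnePoint ℂ) := by
  have h : chart ∞ w = @ite _ (w = 0) (Classical.propDecidable _) ∞ ((w⁻¹ : ℂ) : OnePoint ℂ) := rfl
  rw [h]
  congr

theorem chart_coe (a w : ℂ) : chart (a : OnePoint ℂ) w = ((a + w : ℂ) : OnePoint ℂ) := rfl

theorem pr_eq_chart (a : OnePoint ℂ) {p : ℂ × ℂ} (h : dn a p ≠ 0) : pr p = chart a (lc a p) := by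
  classical
  induction a using OnePoint.rec with
  | infty =>
    have h' : p.1 ≠ 0 := h
    rw [chart_infty]
    show pr p = if p.2 / p.1 = 0 then ∞ else (((p.2 / p.1)⁻¹ : ℂ) : OnePoint ℂ)
    unfold pr
    by_cases h2 : p.2 = 0
    · rw [if_pos h2, if_pos (by rw [h2, zero_div])]
    · rw [if_neg h2, if_neg (div_ne_zero h2 h'), inv_div]
  | coe a =>
    have h' : p.2 ≠ 0 := h
    rw [chart_coe]
    show pr p = ((a + (p.1 / p.2 - a) : ℂ) : OnePoint ℂ)
    unfold pr
    rw [if_neg h']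
    congr 1
    ring

theorem dn_chv (a : OnePoint ℂ) (w : ℂ) : dn a (chv a w) = 1 := by
  induction a using OnePoint.rec with
  | infty => rfl
  | coe a => rfl

theorem lc_chv (a : OnePoint ℂ) (w : ℂ) : lc a (chv a w) = w := by
  induction a using OnePoint.rec with
  | infty => show w / 1 = w; rw [div_one]
  | coe a => show (a + w) / 1 - a = w; ring

theorem chart_eq (a : OnePoint ℂ) (w : ℂ) : chart a w = pr (chv a w) := by
  have h := pr_eq_chart a (p := chv a w) (by rw [dn_chv]; exact one_ne_zero)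
  rw [h, lc_chv]

theorem chart_zero (a : OnePoint ℂ) : chart a 0 = a := by
  classical
  induction a using OnePoint.rec with
  | infty => rw [chart_infty, if_pos rfl]
  | coe a => rw [chart_coe, add_zero]

theorem chart_inj (a : OnePoint ℂ) : Function.Injective (chart a) := by
  classical
  intro w w' hw
  induction a using OnePoint.rec with
  | infty =>
    rw [chart_infty, chart_infty] at hw
    by_cases h1 : w = 0
    · by_cases h2 : w' = 0
      · rw [h1, h2]
      · rw [if_pos h1, if_neg h2] at hw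
        exact absurd hw.symm (OnePoint.coe_ne_infty _)
    · by_cases h2 : w' = 0
      · rw [if_neg h1, if_pos h2] at hw
        exact absurd hw (OnePoint.coe_ne_infty _)
      · rw [if_neg h1, if_neg h2] at hw
        exact inv_injective (OnePoint.coe_injective hw)
  | coe a =>
    rw [chart_coe, chart_coe] at hw
    exact add_left_cancel (OnePoint.coe_injective hw)

theorem dn_ne {a : OnePoint ℂ} {p : ℂ × ℂ} (hp : p ≠ 0) (h : pr p = a) : dn a p ≠ 0 := by
  induction a using OnePoint.rec with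
  | infty =>
    intro h1
    have h1' : p.1 = 0 := h1
    apply hp
    unfold pr at h
    by_cases h2 : p.2 = 0
    · exact Prod.ext h1' h2
    · rw [if_neg h2] at h
      exact absurd h (OnePoint.coe_ne_infty _)
  | coe a =>
    intro h1
    have h1' : p.2 = 0 := h1
    unfold pr at h
    rw [if_pos h1'] at h
    exact absurd h.symm (OnePoint.coe_ne_infty _)

theorem chv_analytic (a : OnePoint ℂ) :
    (AnalyticAt ℂ (fun w => (chv a w).1) 0) ∧ (AnalyticAt ℂ (fun w => (chv a w).2) 0) := by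
  induction a using OnePoint.rec with
  | infty => exact ⟨analyticAt_const, analyticAt_id⟩
  | coe a => exact ⟨analyticAt_const.add analyticAt_id, analyticAt_const⟩

theorem lc_analytic (b : OnePoint ℂ) {P : ℂ → ℂ × ℂ} {w₀ : ℂ} (h1 : AnalyticAt ℂ (fun w => (P w).1) w₀)
    (h2 : AnalyticAt ℂ (fun w => (P w).2) w₀) (h : dn b (P w₀) ≠ 0) :
    AnalyticAt ℂ (fun w => lc b (P w)) w₀ ∧ ∀ᶠ w in 𝓝 w₀, dn b (P w) ≠ 0 := by
  induction b using OnePoint.rec with
  | infty => exact ⟨h2.div h1 h, h1.continuousAt.eventually_ne h⟩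
  | coe b => exact ⟨(h1.div h2 h).sub analyticAt_const, h2.continuousAt.eventually_ne h⟩

section mobius

variable {s t u v : ℂ} {h : OnePoint ℂ ≃ₜ OnePoint ℂ}

/-- Möbius transformations in the charts -/
theorem chart_change (hdet : s * v - t * u = 1)
    (hh : ∀ p : ℂ × ℂ, p ≠ 0 → h (pr p) = pr (s * p.1 + t * p.2, u * p.1 + v * p.2))
    (a : OnePoint ℂ) : ∃ m : ℂ → ℂ, AnalyticAt ℂ m 0 ∧ m 0 = 0 ∧
      ∀ᶠ w in 𝓝 (0 : ℂ), h (chart a w) = chart (h a) (m w) := by
  set P : ℂ → ℂ × ℂ := fun w =>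
    (s * (chv a w).1 + t * (chv a w).2, u * (chv a w).1 + v * (chv a w).2) with hP
  obtain ⟨a1, a2⟩ := chv_analytic a
  have hP1 : AnalyticAt ℂ (fun w => (P w).1) 0 :=
    (analyticAt_const.mul a1).add (analyticAt_const.mul a2)
  have hP2 : AnalyticAt ℂ (fun w => (P w).2) 0 :=
    (analyticAt_const.mul a1).add (analyticAt_const.mul a2)
  have hne : ∀ w, P w ≠ 0 := by
    intro w h0
    apply chv_ne a w
    have e1 : s * (chv a w).1 + t * (chv a w).2 = 0 := congrArg Prod.fst h0
    have e2 : u * (chv a w).1 + v * (chv a w).2 = 0 := congrArg Prod.snd h0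
    refine Prod.ext ?_ ?_
    · show (chv a w).1 = 0
      linear_combination v * e1 - t * e2 - (chv a w).1 * hdet
    · show (chv a w).2 = 0
      linear_combination s * e2 - u * e1 - (chv a w).2 * hdet
  have hPh : ∀ w, h (chart a w) = pr (P w) := by
    intro w
    rw [chart_eq, hh _ (chv_ne a w)]
  have hd0 : dn (h a) (P 0) ≠ 0 := by
    apply dn_ne (hne 0)
    rw [← hPh, chart_zero]
  obtain ⟨h1, h2⟩ := lc_analytic (h a) hP1 hP2 hd0
  refine ⟨fun w => lc (h a) (P w), h1, ?_, ?_⟩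
  · apply chart_inj (h a)
    show chart (h a) (lc (h a) (P 0)) = _
    rw [← pr_eq_chart _ hd0, ← hPh, chart_zero, chart_zero]
  · filter_upwards [h2] with w hw
    rw [hPh, pr_eq_chart _ hw]

theorem inv_form (hdet : s * v - t * u = 1)
    (hh : ∀ p : ℂ × ℂ, p ≠ 0 → h (pr p) = pr (s * p.1 + t * p.2, u * p.1 + v * p.2))
    (p : ℂ × ℂ) (hp : p ≠ 0) : h.symm (pr p) = pr (v * p.1 + (-t) * p.2, (-u) * p.1 + s * p.2) := by
  rw [h.symm_apply_eq]
  have hne : ((v * p.1 + (-t) * p.2, (-u) * p.1 + s * p.2) : ℂ × ℂ) ≠ 0 := by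
    intro h0
    apply hp
    have e1 : v * p.1 + (-t) * p.2 = 0 := congrArg Prod.fst h0
    have e2 : (-u) * p.1 + s * p.2 = 0 := congrArg Prod.snd h0
    refine Prod.ext ?_ ?_
    · show p.1 = 0
      linear_combination s * e1 + t * e2 - p.1 * hdet
    · show p.2 = 0
      linear_combination u * e1 + v * e2 - p.2 * hdet
  rw [hh _ hne]
  congr 1
  refine Prod.ext ?_ ?_
  · show p.1 = s * (v * p.1 + (-t) * p.2) + t * ((-u) * p.1 + s * p.2)
    linear_combination -p.1 * hdet
  · show p.2 = u * (v * p.1 + (-t) * p.2) + v * ((-u) * p.1 + s * p.2)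
    linear_combination -p.2 * hdet

variable {f g : OnePoint ℂ → OnePoint ℂ}

theorem hasMult_transport (hdet : s * v - t * u = 1)
    (hh : ∀ p : ℂ × ℂ, p ≠ 0 → h (pr p) = pr (s * p.1 + t * p.2, u * p.1 + v * p.2))
    (hs : ∀ z, g (h z) = h (f z)) {p : ℕ} {a : OnePoint ℂ} {ρ : ℂ} (H : HasMult f p a ρ) :
    HasMult g p (h a) ρ := by
  obtain ⟨φ, φ0, φd, φe⟩ := H
  obtain ⟨m, ma, m0, me⟩ := chart_change hdet hh a
  have hdet' : v * s - (-t) * (-u) = 1 := by linear_combination hdet
  obtain ⟨m', ma', m0', me'⟩ := chart_change (h := h.symm) hdet' (inv_form hdet hh) (h a)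
  rw [h.symm_apply_apply] at me'
  -- `m'` is the local inverse of `m`
  have hmm : ∀ᶠ w in 𝓝 (0 : ℂ), m' (m w) = w := by
    have hc : Tendsto m (𝓝 0) (𝓝 0) := by
      have := ma.continuousAt.tendsto
      rwa [m0] at this
    filter_upwards [me, hc.eventually me'] with w h1 h2
    apply chart_inj a
    rw [← h2, ← h1, h.symm_apply_apply]
  have hd : deriv m' 0 * deriv m 0 = 1 := by
    have h1 : HasDerivAt m (deriv m 0) 0 := ma.differentiableAt.hasDerivAt
    have h2 : HasDerivAt m' (deriv m' 0) (m 0) := by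
      rw [m0]; exact ma'.differentiableAt.hasDerivAt
    have h3 := h2.comp (0 : ℂ) h1
    have h4 : HasDerivAt (fun w : ℂ => w) (deriv m' 0 * deriv m 0) 0 :=
      h3.congr_of_eventuallyEq (hmm.mono fun w hw => hw.symm)
    exact h4.unique (hasDerivAt_id 0)
  have hm'c : Tendsto m' (𝓝 0) (𝓝 0) := by
    have := ma'.continuousAt.tendsto
    rwa [m0'] at this
  have hφc : Tendsto φ (𝓝 0) (𝓝 0) := by
    have := φd.continuousAt.tendsto
    rwa [φ0] at this
  refine ⟨fun w => m (φ (m' w)), by simp only [m0', φ0, m0], ?_, ?_⟩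
  · have h1 : HasDerivAt m' (deriv m' 0) 0 := ma'.differentiableAt.hasDerivAt
    have h2 : HasDerivAt φ ρ (m' 0) := by rw [m0']; exact φd
    have h3 : HasDerivAt (φ ∘ m') (ρ * deriv m' 0) 0 := h2.comp (0 : ℂ) h1
    have h4 : HasDerivAt m (deriv m 0) ((φ ∘ m') 0) := by
      show HasDerivAt m (deriv m 0) (φ (m' 0))
      rw [m0', φ0]
      exact ma.differentiableAt.hasDerivAt
    have h5 := h4.comp (0 : ℂ) h3
    have e : deriv m 0 * (ρ * deriv m' 0) = ρ := by linear_combination ρ * hd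
    rw [e] at h5
    exact h5
  · filter_upwards [me', hm'c.eventually φe, (hφc.comp hm'c).eventually me] with w h1 h2 h3
    have e1 : chart (h a) w = h (chart a (m' w)) := by
      rw [← h1, h.apply_symm_apply]
    rw [e1, Pool.Agent.H790R3.RB.ALL.iter h hs, h2]
    exact h3

theorem paraB_transport (hdet : s * v - t * u = 1)
    (hh : ∀ p : ℂ × ℂ, p ≠ 0 → h (pr p) = pr (s * p.1 + t * p.2, u * p.1 + v * p.2))
    (hs : ∀ z, g (h z) = h (f z)) {z : OnePoint ℂ} (H : ParaB f z) : ParaB g (h z) := by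
  obtain ⟨p, a, hp, hm, hT, hne⟩ := H
  refine ⟨p, h a, hp, hasMult_transport hdet hh hs hm, ?_, ?_⟩
  · have := (h.continuous.tendsto a).comp hT
    refine this.congr fun k => ?_
    simp only [Function.comp, Pool.Agent.H790R3.RB.ALL.iter h hs]
  · intro k
    rw [Pool.Agent.H790R3.RB.ALL.iter h hs]
    exact fun e => hne k (h.injective e)

theorem siegB_transport (hdet : s * v - t * u = 1)
    (hh : ∀ p : ℂ × ℂ, p ≠ 0 → h (pr p) = pr (s * p.1 + t * p.2, u * p.1 + v * p.2))
    (hs : ∀ z, g (h z) = h (f z)) {z : OnePoint ℂ} (H : SiegB f z) : SiegB g (h z) := by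
  obtain ⟨n, p, r, ρ, ψ, hp, hr, hρ, hirr, hol, hinj, hfe, w, hw, hwz⟩ := H
  refine ⟨n, p, r, ρ, fun w => h (ψ w), hp, hr, hρ, hirr, ?_, ?_, ?_, w, hw, ?_⟩
  · intro w₀ hw₀
    obtain ⟨φ, φa, φe⟩ := hol w₀ hw₀
    obtain ⟨m, ma, m0, me⟩ := chart_change hdet hh (ψ w₀)
    have h0 : φ w₀ = 0 := by
      apply chart_inj (ψ w₀)
      rw [← φe.self_of_nhds, chart_zero]
    have hc : Tendsto φ (𝓝 w₀) (𝓝 0) := by
      have := φa.continuousAt.tendsto
      rwa [h0] at this
    refine ⟨fun w => m (φ w), ?_, ?_⟩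
    · have ma' : AnalyticAt ℂ m (φ w₀) := by rw [h0]; exact ma
      exact ma'.comp φa
    · filter_upwards [φe, hc.eventually me] with w h1 h2
      rw [h1]
      exact h2
  · intro w₁ h₁ w₂ h₂ he
    exact hinj h₁ h₂ (h.injective he)
  · intro w₁ h₁
    show g^[p] (h (ψ w₁)) = h (ψ (ρ * w₁))
    rw [Pool.Agent.H790R3.RB.ALL.iter h hs, hfe w₁ h₁]
  · show h (ψ w) = g^[n] (h z)
    rw [Pool.Agent.H790R3.RB.ALL.iter h hs, hwz]

end mobius

end Pool.Agent.W757.RF
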