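import Mathlib
import Pool.Agent.W757.RF.Chart
import Pool.Agent.W29.RQSNK
import Pool.Agent.W376.RQTRAP
import Pool.Agent.H790R3.RB.TSP

/-! Parabolic basins and Siegel discs on the sphere and in the plane, for maps with attracted
point at infinity. -/

set_option autoImplicit false

open Topology Filter Metric Set MeasureTheory
open scoped OnePoint
open Pool.Agent.H790R3.RB (CV hF cr ND wr rt sp pr hc pol Sink Attd HypTop)
open Pool.Agent.W757.QR
open Pool.Agent.W29.RQSNK (sp_iter fin_of fx_iter_diff sp_fx sp_inf)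
open Pool.Agent.W376.RQTRAP (attd_of_iter)

namespace Pool.Agent.W757.RF

theorem hasMult_fix {f : OnePoint ℂ → OnePoint ℂ} {p : ℕ} {a : OnePoint ℂ} {ρ : ℂ}
    (H : HasMult f p a ρ) : f^[p] a = a := by
  obtain ⟨g, g0, -, ge⟩ := H
  have := ge.self_of_nhds
  rwa [g0, chart_zero] at this

/-- an attracted periodic point is a sink -/
theorem sink_of_attd {f : OnePoint ℂ → OnePoint ℂ} {p : ℕ} {a : OnePoint ℂ} (hp : 0 < p)
    (hfix : f^[p] a = a) (H : Attd f a) : ∃ n, Sink f n a := by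
  obtain ⟨n, b, hS, hT⟩ := H
  have h1 : Tendsto (fun k : ℕ => p * k) atTop atTop :=
    tendsto_id.const_mul_atTop' hp
  have h2 := hT.comp h1
  have h3 : ∀ k : ℕ, f^[n * (p * k)] a = a := by
    intro k
    have e : n * (p * k) = p * (n * k) := by ring
    rw [e, Function.iterate_mul]
    exact Function.iterate_fixed hfix (n * k)
  have h4 : Tendsto (fun _ : ℕ => a) atTop (𝓝 b) := by
    refine h2.congr fun k => ?_
    simp only [Function.comp]
    exact h3 k
  have h5 : a = b := tendsto_nhds_unique tendsto_const_nhds h4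
  exact ⟨n, h5 ▸ hS⟩

/-- points near a sink are attracted -/
theorem attd_near {f : OnePoint ℂ → OnePoint ℂ} {n : ℕ} {a : OnePoint ℂ} (H : Sink f n a) :
    ∀ᶠ w in 𝓝 a, Attd f w := by
  obtain ⟨hn, hfix, U, hU, hV⟩ := H
  filter_upwards [hU] with w hw
  refine ⟨n, a, ⟨hn, hfix, U, hU, hV⟩, ?_⟩
  rw [tendsto_def]
  intro V hVn
  filter_upwards [hV V hVn] with k hk
  exact hk w hw

variable {d : ℕ} {x : CV d}

theorem not_inf (hf : Continuous (sp x)) (hinf : Attd (sp x) ∞) {z : OnePoint ℂ}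
    (hz : ¬ Attd (sp x) z) (j : ℕ) : (sp x)^[j] z ≠ ∞ := by
  intro h
  apply hz
  apply attd_of_iter hf (m := j)
  rw [h]
  exact hinf

theorem fin_of_not (hf : Continuous (sp x)) (hinf : Attd (sp x) ∞) {z : ℂ}
    (hz : ¬ Attd (sp x) z) : Fin' x z := fin_of x z (not_inf hf hinf hz)

theorem para_of (hf : Continuous (sp x)) (hinf : Attd (sp x) ∞) {z : ℂ}
    (hz : ¬ Attd (sp x) z) (H : ParaB (sp x) z) : Para x z := by
  obtain ⟨p, a, hp, hm, hT, hne⟩ := H
  have hfix := hasMult_fix hm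
  have hna : ¬ Attd (sp x) a := by
    intro ha
    obtain ⟨n, hS⟩ := sink_of_attd hp hfix ha
    obtain ⟨k, hk⟩ := (hT.eventually (attd_near hS)).exists
    exact hz (attd_of_iter hf hk)
  induction a using OnePoint.rec with
  | infty => exact absurd hinf hna
  | coe a =>
    have hfa := fin_of_not hf hinf hna
    have hfz := fin_of_not hf hinf hz
    have hfix' : (fx x)^[p] a = a := by
      rw [sp_iter x a p (fun j _ => hfa j)] at hfix
      exact OnePoint.coe_injective hfix
    refine ⟨p, a, hp, hfa, hfix', ?_, hfz, ?_, ?_⟩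
    · obtain ⟨g, g0, gd, ge⟩ := hm
      have h2 : ∀ᶠ z in 𝓝 a, ∀ j ∈ Finset.range p, (de x).eval ((fx x)^[j] z) ≠ 0 := by
        rw [Finset.eventually_all]
        intro j _
        have hc : ContinuousAt (fun z => (de x).eval ((fx x)^[j] z)) a :=
          (de x).continuous.continuousAt.comp
            (fx_iter_diff x a j (fun i _ => hfa i)).continuousAt
        exact hc.eventually_ne (hfa j)
      have h3 : Tendsto (fun z : ℂ => z - a) (𝓝 a) (𝓝 0) := by
        have : Tendsto (fun z : ℂ => z - a) (𝓝 a) (𝓝 (a - a)) :=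
          tendsto_id.sub tendsto_const_nhds
        rwa [sub_self] at this
      have h4 : (fx x)^[p] =ᶠ[𝓝 a] fun z => a + g (z - a) := by
        filter_upwards [h2, h3.eventually ge] with z h5 h6
        rw [chart_coe, chart_coe, add_sub_cancel, sp_iter x z p
          (fun j hj => h5 j (Finset.mem_range.2 hj))] at h6
        exact OnePoint.coe_injective h6
      have h5 : HasDerivAt (fun z => a + g (z - a)) 1 a := by
        have h6 : HasDerivAt g 1 (a - a) := by rw [sub_self]; exact gd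
        exact (h6.comp_sub_const a a).const_add a
      exact (h5.congr_of_eventuallyEq h4).deriv
    · rw [(OnePoint.isOpenEmbedding_coe.isInducing).tendsto_nhds_iff]
      refine hT.congr fun k => ?_
      exact sp_iter x z (p * k) (fun j _ => hfz j)
    · intro k hk
      apply hne k
      rw [sp_iter x z (p * k) (fun j _ => hfz j), hk]

theorem chart_cont (a : OnePoint ℂ) : Continuous (chart a) := by
  have h1 : chart a = fun w => pr (chv a w) := by
    funext w; exact chart_eq a w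
  have h2 : Continuous (chv a) := by
    induction a using OnePoint.rec with
    | infty =>
      have : chv ∞ = fun w => ((1 : ℂ), w) := rfl
      rw [this]; fun_prop
    | coe a =>
      have : chv (a : OnePoint ℂ) = fun w => (a + w, (1 : ℂ)) := rfl
      rw [this]; fun_prop
  rw [h1, continuous_iff_continuousAt]
  intro w
  exact ContinuousAt.comp (f := chv a) (Pool.Agent.H790R3.RB.SP.continuousAt_pr (chv_ne a w))
    h2.continuousAt

theorem holD_cont {h : ℂ → OnePoint ℂ} {r : ℝ} (H : HolD h r) {w : ℂ} (hw : w ∈ ball (0 : ℂ) r) :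
    ContinuousAt h w := by
  obtain ⟨g, ga, ge⟩ := H w hw
  have h1 : ContinuousAt (fun w' => chart (h w) (g w')) w :=
    (chart_cont (h w)).continuousAt.comp ga.continuousAt
  exact h1.congr (ge.mono fun w' hw' => hw'.symm)

/-- the finite value of a point of the sphere -/
noncomputable def toC (a : OnePoint ℂ) : ℂ := a.elim 0 id

theorem coe_toC {a : OnePoint ℂ} (h : a ≠ ∞) : (toC a : OnePoint ℂ) = a := by
  induction a using OnePoint.rec with
  | infty => exact absurd rfl h
  | coe a => rfl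

theorem toC_coe (a : ℂ) : toC (a : OnePoint ℂ) = a := rfl

/-- points of rotation discs are not attracted -/
theorem rot_not {f : OnePoint ℂ → OnePoint ℂ} {p : ℕ} {r : ℝ} {ρ : ℂ} {h : ℂ → OnePoint ℂ}
    (hp : 0 < p) (hr : 0 < r) (hρ : ‖ρ‖ = 1) (hirr : ∀ m : ℕ, 0 < m → ρ ^ m ≠ 1) (hol : HolD h r)
    (hinj : InjOn h (ball 0 r)) (hfe : ∀ w ∈ ball (0 : ℂ) r, f^[p] (h w) = h (ρ * w)) :
    ∀ w ∈ ball (0 : ℂ) r, ¬ Attd f (h w) := by
  have hit : ∀ (k : ℕ), ∀ w ∈ ball (0 : ℂ) r, f^[p * k] (h w) = h (ρ ^ k * w) := by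
    intro k
    induction k with
    | zero => intro w _; simp
    | succ k ih =>
      intro w hw
      have e : p * (k + 1) = p + p * k := by ring
      have h1 : ρ ^ k * w ∈ ball (0 : ℂ) r := by
        rw [mem_ball_zero_iff, norm_mul, norm_pow, hρ, one_pow, one_mul]
        exact mem_ball_zero_iff.1 hw
      rw [e, Function.iterate_add_apply, ih w hw, hfe _ h1, pow_succ]
      congr 1
      ring
  have hmain : ∀ w ∈ ball (0 : ℂ) r, w ≠ 0 → ¬ Attd f (h w) := by
    intro w hw hw0 ⟨n, b, hS, hT⟩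
    have hn := hS.1
    set c : ℝ := ‖ρ ^ n - 1‖ * ‖w‖ with hc
    have hc0 : 0 < c := mul_pos (norm_pos_iff.2 (sub_ne_zero.2 (hirr n hn))) (norm_pos_iff.2 hw0)
    set K : Set (ℂ × ℂ) := {q | q ∈ sphere (0 : ℂ) ‖w‖ ×ˢ sphere (0 : ℂ) ‖w‖ ∧ ‖q.1 - q.2‖ = c}
      with hK
    have hKc : IsCompact K := by
      have h1 : IsCompact (sphere (0 : ℂ) ‖w‖ ×ˢ sphere (0 : ℂ) ‖w‖) :=
        (isCompact_sphere _ _).prod (isCompact_sphere _ _)
      have h2 : IsClosed {q : ℂ × ℂ | ‖q.1 - q.2‖ = c} :=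
        isClosed_eq (by fun_prop) continuous_const
      exact h1.inter_right h2
    have hsph : ∀ v ∈ sphere (0 : ℂ) ‖w‖, v ∈ ball (0 : ℂ) r := by
      intro v hv
      rw [mem_ball_zero_iff]
      rw [mem_sphere_zero_iff_norm.1 hv]
      exact mem_ball_zero_iff.1 hw
    have hΦ : ContinuousOn (fun q : ℂ × ℂ => (h q.1, h q.2)) K := by
      intro q hq
      have h1 := holD_cont hol (hsph _ hq.1.1)
      have h2 := holD_cont hol (hsph _ hq.1.2)
      have h3 : ContinuousAt (fun q : ℂ × ℂ => (h q.1, h q.2)) q :=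
        (ContinuousAt.comp (f := Prod.fst) h1 continuousAt_fst).prodMk
          (ContinuousAt.comp (f := Prod.snd) h2 continuousAt_snd)
      exact h3.continuousWithinAt
    have hIc : IsClosed ((fun q : ℂ × ℂ => (h q.1, h q.2)) '' K) :=
      (hKc.image_of_continuousOn hΦ).isClosed
    have hv : ∀ k : ℕ, (ρ ^ (n * k) * w, ρ ^ (n * (k + 1)) * w) ∈ K := by
      intro k
      have e1 : ∀ j : ℕ, ‖ρ ^ j * w‖ = ‖w‖ := fun j => by
        rw [norm_mul, norm_pow, hρ, one_pow, one_mul]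
      refine ⟨⟨mem_sphere_zero_iff_norm.2 (e1 _), mem_sphere_zero_iff_norm.2 (e1 _)⟩, ?_⟩
      show ‖ρ ^ (n * k) * w - ρ ^ (n * (k + 1)) * w‖ = c
      have e2 : ρ ^ (n * k) * w - ρ ^ (n * (k + 1)) * w = -(ρ ^ (n * k) * ((ρ ^ n - 1) * w)) := by
        rw [mul_add, mul_one, pow_add]; ring
      rw [e2, norm_neg, norm_mul, norm_pow, hρ, one_pow, one_mul, norm_mul]
    have hlim : Tendsto (fun k : ℕ => (h (ρ ^ (n * k) * w), h (ρ ^ (n * (k + 1)) * w))) atTop
        (𝓝 (b, b)) := by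
      have h1 : Tendsto (fun k : ℕ => h (ρ ^ (n * k) * w)) atTop (𝓝 b) := by
        have h2 : Tendsto (fun k : ℕ => p * k) atTop atTop := tendsto_id.const_mul_atTop' hp
        refine (hT.comp h2).congr fun k => ?_
        simp only [Function.comp]
        have e : n * (p * k) = p * (n * k) := by ring
        rw [e, hit (n * k) w hw]
      exact h1.prodMk_nhds ((tendsto_add_atTop_iff_nat 1).2 h1)
    have hmem : (b, b) ∈ (fun q : ℂ × ℂ => (h q.1, h q.2)) '' K :=
      hIc.mem_of_tendsto hlim (Eventually.of_forall fun k => ⟨_, hv k, rfl⟩)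
    obtain ⟨q, hq, hqb⟩ := hmem
    have e1 : h q.1 = b := congrArg Prod.fst hqb
    have e2 : h q.2 = b := congrArg Prod.snd hqb
    have e3 : q.1 = q.2 := hinj (hsph _ hq.1.1) (hsph _ hq.1.2) (e1.trans e2.symm)
    have e4 := hq.2
    rw [e3, sub_self, norm_zero] at e4
    exact hc0.ne e4
  intro w hw hA
  by_cases hw0 : w = 0
  · subst hw0
    have hfix : f^[p] (h 0) = h 0 := by
      rw [hfe 0 (mem_ball_self hr), mul_zero]
    obtain ⟨n, hS⟩ := sink_of_attd hp hfix hA
    have h1 := (holD_cont hol hw).eventually (attd_near hS)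
    have h2 : ∀ᶠ v in 𝓝 (0 : ℂ), v ∈ ball (0 : ℂ) r := isOpen_ball.mem_nhds hw
    obtain ⟨ε, hε, hball⟩ := Metric.eventually_nhds_iff_ball.1 (h1.and h2)
    have h3 : ((ε / 2 : ℝ) : ℂ) ∈ ball (0 : ℂ) ε := by
      rw [mem_ball_zero_iff, Complex.norm_real, Real.norm_eq_abs, abs_of_pos (half_pos hε)]
      linarith
    have h4 : ((ε / 2 : ℝ) : ℂ) ≠ 0 := by
      exact_mod_cast (half_pos hε).ne'
    exact hmain _ (hball _ h3).2 h4 (hball _ h3).1
  · exact hmain w hw hw0 hA

theorem sieg_of (hf : Continuous (sp x)) (hinf : Attd (sp x) ∞) {z : ℂ}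
    (hz : ¬ Attd (sp x) z) (H : SiegB (sp x) z) : Sieg x z := by
  obtain ⟨n, p, r, ρ, h, hp, hr, hρ, hirr, hol, hinj, hfe, w, hw, hwz⟩ := H
  have hnot := rot_not hp hr hρ hirr hol hinj hfe
  have hne : ∀ w ∈ ball (0 : ℂ) r, h w ≠ ∞ := fun w hw h0 => hnot w hw (by rw [h0]; exact hinf)
  have hco : ∀ w ∈ ball (0 : ℂ) r, ((toC (h w) : ℂ) : OnePoint ℂ) = h w := fun w hw =>
    coe_toC (hne w hw)
  have hfin : ∀ w ∈ ball (0 : ℂ) r, Fin' x (toC (h w)) := by
    intro w hw
    apply fin_of_not hf hinf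
    rw [hco w hw]
    exact hnot w hw
  have hfz := fin_of_not hf hinf hz
  have hrot : ∀ w ∈ ball (0 : ℂ) r, ρ * w ∈ ball (0 : ℂ) r := by
    intro w hw
    rw [mem_ball_zero_iff, norm_mul, hρ, one_mul]
    exact mem_ball_zero_iff.1 hw
  refine ⟨n, p, r, fun w => toC (h w), ρ, hp, hr, hρ, hirr, ?_, ?_, ?_, hfz, w, hw, ?_⟩
  · intro w₀ hw₀
    obtain ⟨g, ga, ge⟩ := hol w₀ hw₀
    have h1 : (fun w => toC (h w)) =ᶠ[𝓝 w₀] fun w => toC (h w₀) + g w := by
      filter_upwards [ge] with w hw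
      rw [hw, ← hco w₀ hw₀, chart_coe, toC_coe, toC_coe]
    have h2 : DifferentiableAt ℂ (fun w => toC (h w₀) + g w) w₀ :=
      ga.differentiableAt.const_add _
    exact (h2.congr_of_eventuallyEq h1).differentiableWithinAt
  · intro w₁ h₁ w₂ h₂ he
    apply hinj h₁ h₂
    rw [← hco w₁ h₁, ← hco w₂ h₂]
    exact congrArg _ he
  · intro w hw
    refine ⟨hfin w hw, ?_⟩
    apply OnePoint.coe_injective
    show (((fx x)^[p] (toC (h w)) : ℂ) : OnePoint ℂ) = ((toC (h (ρ * w)) : ℂ) : OnePoint ℂ)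
    rw [← sp_iter x (toC (h w)) p (fun j _ => hfin w hw j), hco w hw, hfe w hw, hco _ (hrot w hw)]
  · apply OnePoint.coe_injective
    show ((toC (h w) : ℂ) : OnePoint ℂ) = (((fx x)^[n] z : ℂ) : OnePoint ℂ)
    rw [hco w hw, ← sp_iter x z n (fun j _ => hfz j), hwz]

end Pool.Agent.W757.RF
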