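import Mathlib
import Pool.Agent.W757.RF.Defs

/-! Planar area in a bounded set after a Möbius transformation, in terms of spherical area. -/

set_option autoImplicit false

open Topology Filter Metric Set MeasureTheory
open scoped OnePoint
open Pool.Agent.H790R3.RB (CV hF cr ND wr rt sp pr hc pol Sink Attd HypTop)

namespace Pool.Agent.W757.RF

theorem det_mul (c : ℂ) :
    ((ContinuousLinearMap.toSpanSingleton ℂ c).restrictScalars ℝ).det = ‖c‖ ^ 2 := by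
  have : (((ContinuousLinearMap.toSpanSingleton ℂ c).restrictScalars ℝ : ℂ →L[ℝ] ℂ) : ℂ →ₗ[ℝ] ℂ) =
      ((LinearMap.toSpanSingleton ℂ ℂ c).restrictScalars ℝ) := by
    ext <;> simp
  rw [ContinuousLinearMap.det, this, LinearMap.det_restrictScalars]
  simp [Algebra.norm_complex_apply, Complex.normSq_eq_norm_sq]

theorem sarea_density_measurable :
    Measurable (fun z : ℂ => ENNReal.ofReal (1 / (1 + ‖z‖ ^ 2) ^ 2)) := by
  fun_prop

/-- a measurable superset of the same spherical area -/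
theorem sarea_hull (E : Set ℂ) : ∃ T : Set ℂ, MeasurableSet T ∧ E ⊆ T ∧ sarea T = sarea E := by
  have h1 : ∀ s : Set ℂ, sarea s =
      (volume.withDensity (fun z : ℂ => ENNReal.ofReal (1 / (1 + ‖z‖ ^ 2) ^ 2))) s := fun s =>
    (withDensity_apply' _ s).symm
  refine ⟨toMeasurable (volume.withDensity
    (fun z : ℂ => ENNReal.ofReal (1 / (1 + ‖z‖ ^ 2) ^ 2))) E, measurableSet_toMeasurable _ _,
    subset_toMeasurable _ _, ?_⟩
  rw [h1, h1, measure_toMeasurable]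

theorem lin_bound {s t u v : ℂ} (hdet : s * v - t * u = 1) {R : ℝ} (hR : 0 ≤ R) {w : ℂ}
    (hw : ‖s * w + t‖ ≤ R * ‖u * w + v‖) :
    1 + ‖w‖ ^ 2 ≤ (((‖v‖ * R + ‖t‖) ^ 2 + (‖s‖ + ‖u‖ * R) ^ 2)) * ‖u * w + v‖ ^ 2 := by
  have e1 : w = v * (s * w + t) - t * (u * w + v) := by linear_combination -w * hdet
  have e2 : (1 : ℂ) = s * (u * w + v) - u * (s * w + t) := by linear_combination -hdet
  have b1 : ‖w‖ ≤ (‖v‖ * R + ‖t‖) * ‖u * w + v‖ := by
    calc ‖w‖ = ‖v * (s * w + t) - t * (u * w + v)‖ := by rw [← e1]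
      _ ≤ ‖v * (s * w + t)‖ + ‖t * (u * w + v)‖ := norm_sub_le _ _
      _ = ‖v‖ * ‖s * w + t‖ + ‖t‖ * ‖u * w + v‖ := by rw [norm_mul, norm_mul]
      _ ≤ ‖v‖ * (R * ‖u * w + v‖) + ‖t‖ * ‖u * w + v‖ := by gcongr
      _ = _ := by ring
  have b2 : 1 ≤ (‖s‖ + ‖u‖ * R) * ‖u * w + v‖ := by
    calc (1 : ℝ) = ‖(1 : ℂ)‖ := norm_one.symm
      _ = ‖s * (u * w + v) - u * (s * w + t)‖ := by rw [← e2]
      _ ≤ ‖s * (u * w + v)‖ + ‖u * (s * w + t)‖ := norm_sub_le _ _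
      _ = ‖s‖ * ‖u * w + v‖ + ‖u‖ * ‖s * w + t‖ := by rw [norm_mul, norm_mul]
      _ ≤ ‖s‖ * ‖u * w + v‖ + ‖u‖ * (R * ‖u * w + v‖) := by gcongr
      _ = _ := by ring
  have c1 : ‖w‖ ^ 2 ≤ ((‖v‖ * R + ‖t‖) * ‖u * w + v‖) ^ 2 := pow_le_pow_left₀ (norm_nonneg _) b1 2
  have c2 : (1 : ℝ) ≤ ((‖s‖ + ‖u‖ * R) * ‖u * w + v‖) ^ 2 := one_le_pow₀ b2
  calc 1 + ‖w‖ ^ 2 ≤ ((‖s‖ + ‖u‖ * R) * ‖u * w + v‖) ^ 2 + ((‖v‖ * R + ‖t‖) * ‖u * w + v‖) ^ 2 :=
        add_le_add c2 c1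
    _ = _ := by ring

theorem area_mob (s t u v : ℂ) (hdet : s * v - t * u = 1) (h : OnePoint ℂ ≃ₜ OnePoint ℂ)
    (hh : ∀ p : ℂ × ℂ, p ≠ 0 → h (pr p) = pr (s * p.1 + t * p.2, u * p.1 + v * p.2)) (R : ℝ)
    (hR : 0 ≤ R) : ∃ C : ℝ, 0 < C ∧ ∀ A : Set (OnePoint ℂ),
      volume {z : ℂ | ‖z‖ ≤ R ∧ (z : OnePoint ℂ) ∈ h '' A} ≤
        ENNReal.ofReal C * sarea {w : ℂ | (w : OnePoint ℂ) ∈ A} := by
  set C₁ : ℝ := ((‖v‖ * R + ‖t‖) ^ 2 + (‖s‖ + ‖u‖ * R) ^ 2) with hC₁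
  have hC₁0 : 0 ≤ C₁ := by positivity
  refine ⟨C₁ ^ 2 + 1, by positivity, ?_⟩
  intro A
  obtain ⟨E, hEm, hAE, hE⟩ := sarea_hull {w : ℂ | (w : OnePoint ℂ) ∈ A}
  set T : Set ℂ := {w : ℂ | u * w + v ≠ 0 ∧ ‖s * w + t‖ ≤ R * ‖u * w + v‖} with hT
  have hTm : MeasurableSet T := by
    have h1 : MeasurableSet {w : ℂ | u * w + v ≠ 0} := by
      have : IsOpen {w : ℂ | u * w + v ≠ 0} := isOpen_ne.preimage (by fun_prop)
      exact this.measurableSet
    have h2 : MeasurableSet {w : ℂ | ‖s * w + t‖ ≤ R * ‖u * w + v‖} := by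
      have : IsClosed {w : ℂ | ‖s * w + t‖ ≤ R * ‖u * w + v‖} :=
        isClosed_le (by fun_prop) (by fun_prop)
      exact this.measurableSet
    exact h1.inter h2
  set φ : ℂ → ℂ := fun w => (s * w + t) / (u * w + v) with hφ
  set φ' : ℂ → ℂ →L[ℝ] ℂ := fun w =>
    (ContinuousLinearMap.toSpanSingleton ℂ (1 / (u * w + v) ^ 2)).restrictScalars ℝ with hφ'
  have hder : ∀ w ∈ E ∩ T, HasFDerivWithinAt φ (φ' w) (E ∩ T) w := by
    intro w hw
    have hne : u * w + v ≠ 0 := hw.2.1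
    have h1 : HasDerivAt (fun w : ℂ => s * w + t) s w := by
      simpa using ((hasDerivAt_id w).const_mul s).add_const t
    have h2 : HasDerivAt (fun w : ℂ => u * w + v) u w := by
      simpa using ((hasDerivAt_id w).const_mul u).add_const v
    have h3 : HasDerivAt φ (1 / (u * w + v) ^ 2) w := by
      have h4 := h1.div h2 hne
      have e : (s * (u * w + v) - (s * w + t) * u) / (u * w + v) ^ 2 = 1 / (u * w + v) ^ 2 := by
        congr 1
        linear_combination hdet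
      rw [e] at h4
      exact h4
    exact (h3.hasFDerivAt.restrictScalars ℝ).hasFDerivWithinAt
  have h1 := addHaar_image_le_lintegral_abs_det_fderiv (volume : Measure ℂ) (hEm.inter hTm) hder
  have hsub : {z : ℂ | ‖z‖ ≤ R ∧ (z : OnePoint ℂ) ∈ h '' A} ⊆
      {z : ℂ | (z : OnePoint ℂ) = h ∞} ∪ φ '' (E ∩ T) := by
    rintro z ⟨hzR, w, hwA, hwz⟩
    induction w using OnePoint.rec with
    | infty => exact Or.inl hwz.symm
    | coe ζ =>
      right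
      have e0 : pr (ζ, 1) = (ζ : OnePoint ℂ) := by
        unfold pr
        rw [if_neg (by simp)]
        simp
      have hne : ((ζ, 1) : ℂ × ℂ) ≠ 0 := by
        intro h0
        exact one_ne_zero (congrArg Prod.snd h0)
      have e1 := hh (ζ, 1) hne
      rw [e0, hwz] at e1
      simp only [mul_one] at e1
      have hce : u * ζ + v ≠ 0 := by
        intro h0
        unfold pr at e1
        rw [if_pos h0] at e1
        exact OnePoint.coe_ne_infty _ e1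
      unfold pr at e1
      rw [if_neg hce] at e1
      have e2 : z = (s * ζ + t) / (u * ζ + v) := OnePoint.coe_injective e1
      refine ⟨ζ, ⟨hAE hwA, hce, ?_⟩, e2.symm⟩
      rw [e2, norm_div, div_le_iff₀ (norm_pos_iff.2 hce)] at hzR
      exact hzR
  have h2 : volume {z : ℂ | (z : OnePoint ℂ) = h ∞} = 0 := by
    refine Set.Subsingleton.measure_zero ?_ _
    intro z hz w hw
    have hz' : (z : OnePoint ℂ) = h ∞ := hz
    have hw' : (w : OnePoint ℂ) = h ∞ := hw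
    exact OnePoint.coe_injective (hz'.trans hw'.symm)
  calc volume {z : ℂ | ‖z‖ ≤ R ∧ (z : OnePoint ℂ) ∈ h '' A}
      ≤ volume ({z : ℂ | (z : OnePoint ℂ) = h ∞} ∪ φ '' (E ∩ T)) := measure_mono hsub
    _ ≤ volume {z : ℂ | (z : OnePoint ℂ) = h ∞} + volume (φ '' (E ∩ T)) := measure_union_le _ _
    _ = volume (φ '' (E ∩ T)) := by rw [h2, zero_add]
    _ ≤ ∫⁻ w in E ∩ T, ENNReal.ofReal |(φ' w).det| := h1
    _ ≤ ∫⁻ w in E ∩ T, ENNReal.ofReal (C₁ ^ 2 + 1) * ENNReal.ofReal (1 / (1 + ‖w‖ ^ 2) ^ 2) := by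
        refine setLIntegral_mono' (hEm.inter hTm) ?_
        intro w hw
        rw [← ENNReal.ofReal_mul (by positivity)]
        refine ENNReal.ofReal_le_ofReal ?_
        have hne : 0 < ‖u * w + v‖ := norm_pos_iff.2 hw.2.1
        have h3 := lin_bound hdet hR hw.2.2
        rw [hφ']
        simp only
        rw [det_mul, norm_div, norm_one, norm_pow, abs_of_nonneg (by positivity)]
        have h4 : (1 + ‖w‖ ^ 2) ^ 2 ≤ (C₁ * ‖u * w + v‖ ^ 2) ^ 2 :=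
          pow_le_pow_left₀ (by positivity) h3 2
        rw [div_pow, one_pow, mul_one_div, div_le_div_iff₀ (by positivity) (by positivity), one_mul]
        calc (1 + ‖w‖ ^ 2) ^ 2 ≤ (C₁ * ‖u * w + v‖ ^ 2) ^ 2 := h4
          _ = C₁ ^ 2 * (‖u * w + v‖ ^ 2) ^ 2 := by ring
          _ ≤ (C₁ ^ 2 + 1) * (‖u * w + v‖ ^ 2) ^ 2 := by gcongr; linarith
    _ ≤ ∫⁻ w in E, ENNReal.ofReal (C₁ ^ 2 + 1) * ENNReal.ofReal (1 / (1 + ‖w‖ ^ 2) ^ 2) :=
        lintegral_mono_set inter_subset_left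
    _ = ENNReal.ofReal (C₁ ^ 2 + 1) * sarea E := by
        rw [lintegral_const_mul _ sarea_density_measurable]
        rfl
    _ = ENNReal.ofReal (C₁ ^ 2 + 1) * sarea {w : ℂ | (w : OnePoint ℂ) ∈ A} := by rw [hE]

end Pool.Agent.W757.RF
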