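import Mathlib
import Pool.Agent.W757.RF.Area
import Pool.Agent.W757.RF.Bridge

/-! The theorem for a map with an arbitrary attracting cycle, from the two parts of the project. -/

set_option autoImplicit false

open Topology Filter Metric Set MeasureTheory
open scoped OnePoint
open Pool.Agent.H790R3.RB (CV hF cr ND wr rt sp pr hc pol Sink Attd HypTop)
open Pool.Agent.W757.QR

namespace Pool.Agent.W757.RF

open Pool.Agent.H790R3.RB.ALL in
theorem seq_all (hSEQ : Pool.Agent.W757.RC.StSEQ) (hTRAP : StTRAP) (hAPX : StAPX) (d : ℕ)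
    (x₀ : CV d) (hd : 2 ≤ d) (hx₀ : ND x₀) (n : ℕ) (a : OnePoint ℂ) (hS : Sink (sp x₀) n a)
    (H : ∀ δ : ℝ, 0 < δ → ∃ x : CV d, ‖x - x₀‖ < δ ∧ ND x ∧
      sarea (JS (sp x)) < ENNReal.ofReal δ) :
    ∀ ε : ℝ, 0 < ε → ∃ x : CV d, ‖x - x₀‖ < ε ∧ ND x ∧ HypTop (sp x) := by
  have hSP := Pool.Agent.H790R3.RB.SP
  have hCJ := Pool.Agent.H790R3.RB.CJ
  have hMOB := Pool.Agent.H790R3.RB.MOB Pool.Agent.H790R3.RB.SP
  intro ε hε
  have hd1 : 1 ≤ d := by omega
  obtain ⟨cj, hcd, -, -, -, hcj⟩ := hCJ d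
  obtain ⟨-, -, -, hhc, -⟩ := hSP d x₀ hd1 hx₀
  have hq := (hhc a).2
  have hqa := (hhc a).1
  set q := hc a with hqdef
  obtain ⟨s, t, hst⟩ : ∃ s t : ℂ, s * q.1 + t * q.2 = 1 := by
    by_cases h1 : q.1 = 0
    · have h2 : q.2 ≠ 0 := fun h2 => hq (Prod.ext h1 h2)
      exact ⟨0, q.2⁻¹, by rw [zero_mul, zero_add, inv_mul_cancel₀ h2]⟩
    · exact ⟨q.1⁻¹, 0, by rw [zero_mul, add_zero, inv_mul_cancel₀ h1]⟩
  -- the matrix
  have hdet : s * q.1 - t * (-q.2) = 1 := by linear_combination hst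
  set m : (ℂ × ℂ) × (ℂ × ℂ) := ((s, t), (-q.2, q.1)) with hm
  set mi : (ℂ × ℂ) × (ℂ × ℂ) := ((q.1, -t), (q.2, s)) with hmi
  have hdet' : q.1 * s - (-t) * q.2 = 1 := by linear_combination hst
  have hR1 : ∀ y : CV d, Rel s t (-q.2) q.1 y (cj m y) := fun y p => by
    rw [hcj m y p]
  have hND1 : ∀ y : CV d, ND y → ND (cj m y) := fun y hy => nd_of_rel hdet (hR1 y) hy
  obtain ⟨h, hh, -⟩ := hMOB s t (-q.2) q.1 (by rw [hdet]; exact one_ne_zero)
  have hs1 : ∀ y : CV d, ND y → ∀ z, sp (cj m y) (h z) = h (sp y z) := fun y hy =>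
    semi hSP hd1 hy (hND1 y hy) hdet (hR1 y) h hh
  have hha : h a = ∞ := by
    rw [← hqa, hh q hq]
    have h0 : -q.2 * q.1 + q.1 * q.2 = 0 := by ring
    unfold pr
    rw [if_pos h0]
  have hS1 : Sink (sp (cj m x₀)) n ∞ := by
    rw [← hha]; exact sink h (hs1 x₀ hx₀) hS
  obtain ⟨K, σ, hσ, hK, hT⟩ := hTRAP d (cj m x₀) n hd (hND1 x₀ hx₀) hS1
  obtain ⟨R, hR0, hKR⟩ : ∃ R : ℝ, 0 ≤ R ∧ ∀ z ∈ K, ‖z‖ ≤ R := by
    obtain ⟨R, hR⟩ := hK.isBounded.exists_norm_le
    exact ⟨max R 0, le_max_right _ _, fun z hz => (hR z hz).trans (le_max_left _ _)⟩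
  obtain ⟨C, hC0, hC⟩ := area_mob s t (-q.2) q.1 hdet h hh R hR0
  have hcontm : Continuous (fun y : CV d => cj m y) := by
    have h1 := hcd.continuous
    exact h1.comp (continuous_const.prodMk continuous_id)
  -- the sequence of maps
  have hseq : ∀ δ : ℝ, 0 < δ → ∃ x : CV d, ‖x - cj m x₀‖ < δ ∧ ND x ∧
      volume {z : ℂ | ¬ Attd (sp x) (z : OnePoint ℂ)} ≤ ENNReal.ofReal δ := by
    intro δ hδ
    obtain ⟨δ₂, hδ₂, hδ₂c⟩ := Metric.continuous_iff.1 hcontm x₀ (min (δ / 2) σ)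
      (lt_min (half_pos hδ) hσ)
    set δ₃ : ℝ := min δ₂ (δ / 2 / C) with hδ₃
    have hδ₃0 : 0 < δ₃ := lt_min hδ₂ (div_pos (half_pos hδ) hC0)
    obtain ⟨x', hx', hND', har⟩ := H δ₃ hδ₃0
    have hy : ‖cj m x' - cj m x₀‖ < min (δ / 2) σ := by
      have := hδ₂c x' (by rw [dist_eq_norm]; exact hx'.trans_le (min_le_left _ _))
      rwa [dist_eq_norm] at this
    obtain ⟨hNDy, hTy, hinf, hout⟩ := hT (cj m x') (hy.trans_le (min_le_right _ _))
    obtain ⟨x'', hx'', hND'', hv⟩ := hAPX d (cj m x') K hd hNDy hTy hinf hout (δ / 2) (half_pos hδ)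
    refine ⟨x'', ?_, hND'', hv.trans ?_⟩
    · calc ‖x'' - cj m x₀‖ = ‖(x'' - cj m x') + (cj m x' - cj m x₀)‖ := by congr 1; abel
        _ ≤ ‖x'' - cj m x'‖ + ‖cj m x' - cj m x₀‖ := norm_add_le _ _
        _ < δ / 2 + δ / 2 := add_lt_add hx'' (hy.trans_le (min_le_left _ _))
        _ = δ := add_halves δ
    · have hfc : Continuous (sp (cj m x')) := (hSP d (cj m x') hd1 hNDy).1
      set A : Set (OnePoint ℂ) := {w | ¬ Attd (sp x') w ∧ ¬ ParaB (sp x') w ∧ ¬ SiegB (sp x') w}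
        with hA
      have hsub : {z : ℂ | ¬ (Attd (sp (cj m x')) (z : OnePoint ℂ) ∨ Para (cj m x') z ∨
          Sieg (cj m x') z)} ⊆ {z : ℂ | ‖z‖ ≤ R ∧ (z : OnePoint ℂ) ∈ h '' A} := by
        intro z hz
        have hz' : ¬ (Attd (sp (cj m x')) (z : OnePoint ℂ) ∨ Para (cj m x') z ∨
          Sieg (cj m x') z) := hz
        push Not at hz'
        obtain ⟨z1, z2, z3⟩ := hz'
        refine ⟨?_, h.symm z, ⟨?_, ?_, ?_⟩, h.apply_symm_apply _⟩
        · by_contra hzR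
          apply z1
          apply hout
          intro hzK
          exact hzR (hKR z hzK)
        · intro hAt
          apply z1
          have := attd h (hs1 x' hND') hAt
          rwa [h.apply_symm_apply] at this
        · intro hP
          apply z2
          have := paraB_transport hdet hh (hs1 x' hND') hP
          rw [h.apply_symm_apply] at this
          exact para_of hfc hinf z1 this
        · intro hP
          apply z3
          have := siegB_transport hdet hh (hs1 x' hND') hP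
          rw [h.apply_symm_apply] at this
          exact sieg_of hfc hinf z1 this
      have h1 : volume {z : ℂ | ¬ (Attd (sp (cj m x')) (z : OnePoint ℂ) ∨ Para (cj m x') z ∨
          Sieg (cj m x') z)} ≤ ENNReal.ofReal (δ / 2) := by
        refine (measure_mono hsub).trans ((hC A).trans ?_)
        have h2 : sarea {w : ℂ | (w : OnePoint ℂ) ∈ A} ≤ ENNReal.ofReal (δ / 2 / C) :=
          har.le.trans (ENNReal.ofReal_le_ofReal (min_le_right _ _))
        calc ENNReal.ofReal C * sarea {w : ℂ | (w : OnePoint ℂ) ∈ A}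
            ≤ ENNReal.ofReal C * ENNReal.ofReal (δ / 2 / C) := by gcongr
          _ = ENNReal.ofReal (δ / 2) := by
              rw [← ENNReal.ofReal_mul hC0.le, mul_div_cancel₀ _ hC0.ne']
      calc volume {z : ℂ | ¬ (Attd (sp (cj m x')) (z : OnePoint ℂ) ∨ Para (cj m x') z ∨
          Sieg (cj m x') z)} + ENNReal.ofReal (δ / 2)
          ≤ ENNReal.ofReal (δ / 2) + ENNReal.ofReal (δ / 2) := by gcongr
        _ = ENNReal.ofReal δ := by
            rw [← ENNReal.ofReal_add (half_pos hδ).le (half_pos hδ).le, add_halves]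
  -- the inverse conjugation
  have hR2 : ∀ y : CV d, Rel q.1 (-t) q.2 s y (cj mi y) := fun y p => by
    rw [hcj mi y p]
  have hback : cj mi (cj m x₀) = x₀ := by
    apply hF_inj
    intro p
    rw [hR2 (cj m x₀) p]
    have e1 := rel_apply hdet (hR1 x₀) p
    have e2 : ((s * p.1 - -t * p.2, q.1 * p.2 - q.2 * p.1) : ℂ × ℂ) =
        (s * p.1 + t * p.2, -q.2 * p.1 + q.1 * p.2) := by
      refine Prod.ext ?_ ?_
      · show s * p.1 - -t * p.2 = s * p.1 + t * p.2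
        ring
      · show q.1 * p.2 - q.2 * p.1 = -q.2 * p.1 + q.1 * p.2
        ring
    rw [e2, e1]
    refine Prod.ext ?_ ?_
    · show q.1 * (s * (hF x₀ p).1 + t * (hF x₀ p).2) +
        -t * (-q.2 * (hF x₀ p).1 + q.1 * (hF x₀ p).2) = (hF x₀ p).1
      linear_combination (hF x₀ p).1 * hst
    · show q.2 * (s * (hF x₀ p).1 + t * (hF x₀ p).2) +
        s * (-q.2 * (hF x₀ p).1 + q.1 * (hF x₀ p).2) = (hF x₀ p).2
      linear_combination (hF x₀ p).2 * hst
  have hcont : Continuous (fun y : CV d => cj mi y) := by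
    have h1 := hcd.continuous
    exact h1.comp (continuous_const.prodMk continuous_id)
  obtain ⟨δ, hδ, hδε⟩ := Metric.continuous_iff.1 hcont (cj m x₀) ε hε
  obtain ⟨x₁, hx₁, hND, hHyp⟩ := hSEQ d (cj m x₀) n hd (hND1 x₀ hx₀) hS1 hseq δ hδ
  have hND2 : ND (cj mi x₁) := nd_of_rel hdet' (hR2 x₁) hND
  refine ⟨cj mi x₁, ?_, hND2, ?_⟩
  · have := hδε x₁ (by rw [dist_eq_norm]; exact hx₁)
    rw [hback, dist_eq_norm] at this
    exact this
  · obtain ⟨h', hh', -⟩ := hMOB q.1 (-t) q.2 s (by rw [hdet']; exact one_ne_zero)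
    exact hyp h' (semi hSP hd1 hND hND2 hdet' (hR2 x₁) h' hh') hHyp

end Pool.Agent.W757.RF
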