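import Mathlib
import Pool.Agent.W757.RC.Base
import Pool.Agent.W757.RF.Final
import Pool.Agent.W40.RQAF
import Pool.Agent.W29.RQPF
import Pool.Agent.W85.RQINJ
import Pool.Agent.W345.RQSURL
import Pool.Agent.W29.RQSYL
import Pool.Agent.W40.RQCURVE
import Pool.Agent.W29.RQSNK
import Pool.Agent.W29.RQAPP
import Pool.Agent.W85.RQAPS
import Pool.Agent.W324.RQOPA
import Pool.Agent.W376.RQTRAP
import Pool.Agent.W409.RQAPX
import Pool.Agent.W369.RQLOCM
import Pool.Agent.W305.RQDCL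
import Pool.Agent.W345.RQMARK
import Pool.Agent.W345.RQTRF
import Pool.Agent.W503.RQSMK
import Pool.Agent.W503.RQGENX
import Pool.Agent.W503.RQLNE
import Pool.Agent.W361.RQNUM
import Pool.Agent.W503.RQSTART
import Pool.Agent.W820.RQMINP
import Pool.Agent.W40.RQSEL
import Pool.Agent.W29.RQSEQ

/-! Assembly of the projects RC, QR and RF. -/

set_option autoImplicit false

open Topology Filter Metric Set MeasureTheory
open scoped OnePoint
open Pool.Agent.H790R3.RB (CV hF cr ND wr rt sp pr hc pol Sink Attd HypTop)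

namespace Pool.Agent.W757.RF

open Pool.Agent.W757.RC Pool.Agent.W757.QR

theorem m_MINP : StMINP :=
  Pool.Agent.W820.MINP.task p_LAM p_LIN p_LSC p_DI p_USC p_ADO p_LF p_IN p_CPT p_OPN p_EXC p_FKB
    p_NU p_ZZ p_JT p_ST p_NC Pool.Agent.H790R3.RB.DISC Pool.Agent.H790R3.RB.MAXI
    Pool.Agent.H790R3.RB.CONT

theorem m_MARK : StMARK := Pool.Agent.W345.RQMARK.task Pool.Agent.W369.RQLOCM.task
  Pool.Agent.W305.RQDCL.task

theorem m_START : StSTART :=
  Pool.Agent.W503.RQ.task_START Pool.Agent.W503.RQ.task_SMK m_MARK p_USC Pool.Agent.W503.RQ.task_LNE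
    p_EMIN p_LAM p_KOE

theorem m_SEL : StSEL :=
  Pool.Agent.W40.RQSEL.task m_START m_MARK (Pool.Agent.W345.RQTRF.task p_LAM p_ADO) m_MINP
    (W361_NUM p_ONE p_LAM) p_ALLC p_TOP p_ER p_LAM p_KOE

theorem m_SEQ : StSEQ := Pool.Agent.W29.RQSEQ.task m_SEL Pool.Agent.W503.RQ.task_GENX

theorem m_TRAP : StTRAP := Pool.Agent.W376.RQTRAP.task Pool.Agent.W324.RQOPA.task

theorem m_APX : StAPX :=
  Pool.Agent.W409.RQAPX.task Pool.Agent.W29.RQSNK.task Pool.Agent.W324.RQOPA.task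
    Pool.Agent.W40.RQAF.task Pool.Agent.W29.RQPF.task Pool.Agent.W85.RQINJ.task
    Pool.Agent.W345.RQSURL.task Pool.Agent.W29.RQSYL.task Pool.Agent.W40.RQCURVE.task
    Pool.Agent.W29.RQAPP.task Pool.Agent.W85.RQAPS.task

/-- A rational map with an attracting cycle which is a limit of rational maps whose Julia-type sets
have area tending to zero is a limit of hyperbolic rational maps. -/
theorem main (d : ℕ) (x₀ : CV d) (hd : 2 ≤ d) (hx₀ : ND x₀) (n : ℕ) (a : OnePoint ℂ)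
    (hS : Sink (sp x₀) n a)
    (H : ∀ δ : ℝ, 0 < δ → ∃ x : CV d, ‖x - x₀‖ < δ ∧ ND x ∧
      sarea (JS (sp x)) < ENNReal.ofReal δ) :
    ∀ ε : ℝ, 0 < ε → ∃ x : CV d, ‖x - x₀‖ < ε ∧ ND x ∧ HypTop (sp x) :=
  seq_all m_SEQ m_TRAP m_APX d x₀ hd hx₀ n a hS H

end Pool.Agent.W757.RF
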